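import Pool.Agent.N824.CR.Final

/-!
# Local diffeomorphisms of Euclidean space which are the identity outside a ball
-/

set_option autoImplicit false
set_option maxSynthPendingDepth 3

open Set Filter Topology Metric Function MeasureTheory
open scoped Manifold ContDiff

noncomputable section

namespace Pool.Agent.N824.CI

open Pool.Agent.Y522

variable {n : ℕ}

/-- a map which is the identity outside a ball is proper -/
theorem proper_of_id {g : E n → E n} (hc : Continuous g) {R : ℝ} (hR : ∀ x, R < ‖x‖ → g x = x) :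
    IsProperMap g := by
  rw [isProperMap_iff_isCompact_preimage]
  refine ⟨hc, fun K hK => ?_⟩
  refine ((isCompact_closedBall (0 : E n) R).union hK).of_isClosed_subset
    (hK.isClosed.preimage hc) fun x hx => ?_
  by_cases h : R < ‖x‖
  · right
    have h1 : g x ∈ K := hx
    rwa [hR x h] at h1
  · left
    exact mem_closedBall_zero_iff.2 (not_lt.1 h)

/-- a proper local homeomorphism with one simple fibre is injective -/
theorem inj_proper {M N : Type} [TopologicalSpace M] [TopologicalSpace N]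
    [T2Space M] [T2Space N] [PreconnectedSpace N] (ψ : M → N) (hp : IsProperMap ψ)
    (ho : IsOpenMap ψ) (hl : ∀ x, ∃ u ∈ 𝓝 x, InjOn ψ u) (y0 : N)
    (h0 : ∀ a b, ψ a = y0 → ψ b = y0 → a = b) : Injective ψ := by
  have hc := hp.continuous
  obtain ⟨P, hP⟩ : ∃ P : Set (M × M), P = {z | ψ z.1 = ψ z.2 ∧ z.1 ≠ z.2} := ⟨_, rfl⟩
  obtain ⟨T, hT⟩ : ∃ T : Set N, T = (fun z : M × M => ψ z.1) '' P := ⟨_, rfl⟩
  have hPm : ∀ z, z ∈ P ↔ (ψ z.1 = ψ z.2 ∧ z.1 ≠ z.2) := fun z => by rw [hP]; rfl
  have hTo : IsOpen T := by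
    rw [isOpen_iff_mem_nhds]
    intro y hy
    rw [hT] at hy
    obtain ⟨⟨a, b⟩, hab, rfl⟩ := hy
    obtain ⟨h1, h2⟩ := (hPm _).1 hab
    simp only at h1 h2 ⊢
    obtain ⟨Wa, Wb, hWa, hWb, ha, hb, hd⟩ := t2_separation h2
    have e1 : ψ '' Wa ∈ 𝓝 (ψ a) := ho.image_mem_nhds (hWa.mem_nhds ha)
    have e2 : ψ '' Wb ∈ 𝓝 (ψ a) := by
      rw [h1]
      exact ho.image_mem_nhds (hWb.mem_nhds hb)
    filter_upwards [e1, e2] with y y1 y2
    obtain ⟨a', ha', rfl⟩ := y1
    obtain ⟨b', hb', hy⟩ := y2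
    rw [hT]
    refine ⟨(a', b'), (hPm _).2 ⟨hy.symm, ?_⟩, rfl⟩
    rintro (rfl : a' = b')
    exact disjoint_left.1 hd ha' hb'
  choose u hu hinj using hl
  have hPc : IsClosed P := by
    have e1 : P = {z : M × M | ψ z.1 = ψ z.2} ∩ (⋃ x, interior (u x) ×ˢ interior (u x))ᶜ := by
      ext ⟨a, b⟩
      rw [hPm]
      simp only [mem_inter_iff, mem_ofPred_eq, mem_compl_iff, mem_iUnion, not_exists, mem_prod]
      constructor
      · rintro ⟨h1, h2⟩
        refine ⟨h1, fun x hx => h2 ?_⟩
        exact hinj x (interior_subset hx.1) (interior_subset hx.2) h1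
      · rintro ⟨h1, h2⟩
        refine ⟨h1, ?_⟩
        rintro rfl
        exact h2 a ⟨mem_interior_iff_mem_nhds.2 (hu a), mem_interior_iff_mem_nhds.2 (hu a)⟩
    rw [e1]
    refine (isClosed_eq (hc.comp continuous_fst) (hc.comp continuous_snd)).inter ?_
    rw [isClosed_compl_iff]
    exact isOpen_iUnion fun x => isOpen_interior.prod isOpen_interior
  have hTc : IsClosed T := by
    have h1 : IsClosed (Prod.map ψ ψ '' P) := (hp.prodMap hp).isClosedMap P hPc
    have h2 : T = (fun y : N => (y, y)) ⁻¹' (Prod.map ψ ψ '' P) := by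
      ext y
      rw [hT]
      constructor
      · rintro ⟨z, hz, rfl⟩
        exact ⟨z, hz, Prod.ext rfl ((hPm z).1 hz).1.symm⟩
      · rintro ⟨z, hz, hy⟩
        exact ⟨z, hz, congrArg Prod.fst hy⟩
    rw [h2]
    exact h1.preimage (continuous_id.prodMk continuous_id)
  rcases isClopen_iff.1 ⟨hTc, hTo⟩ with h | h
  · intro a b hab
    by_contra hne
    have : ψ a ∈ T := by
      rw [hT]
      exact ⟨(a, b), (hPm _).2 ⟨hab, hne⟩, rfl⟩
    rw [h] at this
    exact this
  · exfalso
    have : y0 ∈ T := by rw [h]; exact mem_univ _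
    rw [hT] at this
    obtain ⟨⟨a, b⟩, hab, hy⟩ := this
    obtain ⟨h1, h2⟩ := (hPm _).1 hab
    exact h2 (h0 a b hy (h1.symm.trans hy))

/-- the derivative as an equivalence -/
theorem equiv_of_inj (D : E n →L[ℝ] E n) (h : ∀ v, D v = 0 → v = 0) :
    ∃ A : E n ≃L[ℝ] E n, (A : E n →L[ℝ] E n) = D := by
  have h1 : Injective D.toLinearMap := by
    rw [← LinearMap.ker_eq_bot, LinearMap.ker_eq_bot']
    exact h
  refine ⟨(LinearEquiv.ofInjectiveEndo D.toLinearMap h1).toContinuousLinearEquiv, ?_⟩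
  ext v
  rfl

/-- local diffeomorphisms which are the identity outside a ball are diffeomorphisms -/
theorem diffeo_of_ld {g : E n → E n} (hg : ContDiff ℝ ∞ g)
    (hinj : ∀ x v, fderiv ℝ g x v = 0 → v = 0) {R : ℝ} (hR : ∀ x, R < ‖x‖ → g x = x) :
    ∃ h : E n → E n, ContDiff ℝ ∞ h ∧ LeftInverse h g ∧ RightInverse h g := by
  have hc : Continuous g := hg.continuous
  have hp := proper_of_id hc hR
  choose A hA using fun x => equiv_of_inj (fderiv ℝ g x) (hinj x)
  have hfd : ∀ x, HasFDerivAt g (A x : E n →L[ℝ] E n) x := fun x => by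
    rw [hA]
    exact (hg.differentiable (by simp) x).hasFDerivAt
  have hld : ∀ x, LD n g x := fun x =>
    LD_of_contDiffAt (Eventually.of_forall fun y => hg.contDiffAt) (A x) (hfd x)
  have ho : IsOpenMap g := by
    rw [isOpenMap_iff_nhds_le]
    intro x s hs
    have h1 := (hld x).image_mem_nhds hs
    exact mem_of_superset h1 (image_preimage_subset g s)
  have hinjg : Injective g := by
    rcases subsingleton_or_nontrivial (E n) with h | h
    · intro a b _
      exact Subsingleton.elim a b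
    · obtain ⟨R', hR'⟩ := (isCompact_closedBall (0 : E n) R).exists_bound_of_continuousOn
        hc.continuousOn
      obtain ⟨y0, hy0⟩ := NormedSpace.exists_lt_norm ℝ (E n) (max R R')
      refine inj_proper g hp ho (fun x => ?_) y0 ?_
      · exact (hld x).eventually_injOn
      · have key : ∀ a, g a = y0 → a = y0 := by
          intro a ha
          by_cases h1 : R < ‖a‖
          · rw [← ha, hR a h1]
          · have h2 := hR' a (mem_closedBall_zero_iff.2 (not_lt.1 h1))
            rw [ha] at h2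
            exact absurd (h2.trans (le_max_right R R')) (not_le.2 hy0)
        intro a b ha hb
        rw [key a ha, key b hb]
  have hsurj : Surjective g := by
    have h1 : IsClopen (range g) := ⟨hp.isClosedMap.isClosed_range, ho.isOpen_range⟩
    rcases isClopen_iff.1 h1 with h | h
    · exact absurd h (range_nonempty g).ne_empty
    · exact range_eq_univ.1 h
  obtain ⟨Ψ, hΨ⟩ : ∃ Ψ : E n ≃ₜ E n, (Ψ : E n → E n) = g :=
    ⟨(Equiv.ofBijective g ⟨hinjg, hsurj⟩).toHomeomorphOfContinuousOpen hc ho, rfl⟩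
  refine ⟨Ψ.symm, ?_, ?_, ?_⟩
  · refine Ψ.contDiff_symm (f₀' := A) (fun a => ?_) ?_
    · rw [hΨ]
      exact hfd a
    · rw [hΨ]
      exact hg
  · intro x
    rw [← hΨ]
    exact Ψ.symm_apply_apply x
  · intro x
    rw [← hΨ]
    exact Ψ.apply_symm_apply x

end Pool.Agent.N824.CI
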