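import Pool.Agent.N824.CI.Diffeo
import Pool.Agent.N824.CJ.GlobR
import Pool.Agent.N824.CJ.Conv

/-!
# Coarse families of diffeomorphisms
-/

set_option autoImplicit false
set_option maxSynthPendingDepth 3

open Set Filter Topology Metric Function MeasureTheory
open scoped Manifold ContDiff

set_option linter.unusedSectionVars false

noncomputable section

namespace Pool.Agent.N824.CI

open Pool.Agent.Y522 Pool.Agent.N824.CJ Pool.Agent.N824.CN

variable {N : ℕ} {P W : Type} [NormedAddCommGroup P] [NormedSpace ℝ P]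
  [NormedAddCommGroup W] [NormedSpace ℝ W] [FiniteDimensional ℝ W]

/-- the derivative of `F` at `z` is injective on the kernel of `π` -/
def VI (π : E N →L[ℝ] P) (F : E N → W) (z : E N) : Prop :=
  ∀ v, π v = 0 → fderiv ℝ F z v = 0 → v = 0

/-- mean affine -/
def MA (f : E N → W) (p : E N) (r b : ℝ) (L : E N →L[ℝ] W) : Prop :=
  IntegrableOn f (closedBall p r) ∧ ∃ c : W, ∫ q in closedBall p r, ‖f q - c - L (q - p)‖ ≤ b

/-- the coarse condition -/
def CoarseI (π : E N →L[ℝ] P) (C : ℝ) (S : Set ℝ) (f : ℝ → E N → W) (z : E N) : Prop :=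
  ∃ (ρ : ℝ) (τ : ℝ → ℝ), 0 < ρ ∧ Tendsto τ (𝓝[>] 0) (𝓝 0) ∧ ∀ p, ‖p - z‖ < ρ → ∀ r ∈ S,
    0 < r → r < ρ → ∃ (L : E N →L[ℝ] W) (δ : ℝ), 0 ≤ δ ∧ (1 + ‖L‖) * r ≤ δ * τ r ∧
      MA (f r) p r (δ * r ^ (N + 1)) L ∧ ∀ v, π v = 0 → v ≠ 0 → C * δ * ‖v‖ < ‖L v‖

lemma trans_int (g : E N → ℝ) (p z : E N) (r : ℝ) :
    ∫ w in closedBall p r, g (w + z) = ∫ q in closedBall (p + z) r, g q := by
  have h1 := (measurePreserving_add_right (volume : Measure (E N)) z).setIntegral_preimage_emb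
    (MeasurableEquiv.addRight z).measurableEmbedding g (closedBall (p + z) r)
  rw [← h1]
  congr 2
  ext w
  simp only [mem_preimage, mem_closedBall, dist_eq_norm]
  rw [add_sub_add_right_eq_sub]

lemma trans_intOn {f : E N → W} {p z : E N} {r : ℝ}
    (h : IntegrableOn f (closedBall (p + z) r)) :
    IntegrableOn (fun w => f (w + z)) (closedBall p r) := by
  have h1 := ((measurePreserving_add_right (volume : Measure (E N)) z).integrableOn_comp_preimage
    (MeasurableEquiv.addRight z).measurableEmbedding (f := f) (s := closedBall (p + z) r)).2 h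
  have h2 : (fun w : E N => w + z) ⁻¹' closedBall (p + z) r = closedBall p r := by
    ext w
    simp only [mem_preimage, mem_closedBall, dist_eq_norm]
    rw [add_sub_add_right_eq_sub]
  rw [h2] at h1
  exact h1

/-- the relation used in the smoothing -/
def QI (π : E N →L[ℝ] P) (Φ : E N → W) (A : E N → E N) (p : E N) (L : E N →L[ℝ] W)
    (κ δ : ℝ) : Prop :=
  (∃ x₀, A = fun y => y + x₀) ∧ κ = 1 ∧
    ∀ v, π v = 0 → v ≠ 0 → CJ N * δ * ‖v‖ < ‖L v + fderiv ℝ Φ (A p) v‖

theorem creg {π : E N →L[ℝ] P} {C : ℝ} (hC : 2 * CJ N ≤ C) {Φ : E N → W}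
    (hΦ : ContDiff ℝ ∞ Φ) {S : Set ℝ} {f : ℝ → E N → W} {z : E N} (h : CoarseI π C S f z) :
    CRegJ N (fun x y => ‖x - y‖) S (fun r x => f r x - Φ x) (QI π Φ) z := by
  obtain ⟨ρ, τ, hρ, hτ, hmain⟩ := h
  obtain ⟨ρ1, C2, hρ1, hC2, hd1, hq1⟩ := quad_ballW (hΦ.contDiffAt (x := z)) one_pos
  have hVB := VB_nonneg (n := N)
  obtain ⟨M, hM⟩ : ∃ M, M = ‖fderiv ℝ Φ z‖ + 1 := ⟨_, rfl⟩
  have hM0 : 0 ≤ M := by rw [hM]; positivity
  have hev : ∀ᶠ r in 𝓝[>] (0 : ℝ), C2 * VB N * τ r < 1 := by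
    have h1 : Tendsto (fun r => C2 * VB N * τ r) (𝓝[>] 0) (𝓝 (C2 * VB N * 0)) :=
      hτ.const_mul _
    rw [mul_zero] at h1
    exact h1.eventually_lt_const one_pos
  obtain ⟨ρ3, hρ3, hb3⟩ := mem_nhdsGT_iff_exists_Ioo_subset.1 hev
  have hρ3' : 0 < ρ3 := hρ3
  refine ⟨fun y => y + z, 1, min (min ρ ρ3) (ρ1 / 2), fun r => (1 + M) * τ r, by simp,
    LD_add_const z 0, le_rfl, lt_min (lt_min hρ hρ3') (by positivity), ?_, ?_, ?_⟩
  · have h1 := hτ.const_mul (1 + M)
    rwa [mul_zero] at h1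
  · intro p q _ _
    beta_reduce
    rw [add_sub_add_right_eq_sub, one_mul]
    exact ⟨le_rfl, le_rfl⟩
  · intro p hp r hr h0 hrρ
    have hpρ : ‖p + z - z‖ < ρ := by
      rw [add_sub_cancel_right]
      exact hp.trans_le ((min_le_left _ _).trans (min_le_left _ _))
    have hp1 : ‖p‖ < ρ1 / 2 := hp.trans_le (min_le_right _ _)
    have hr1 : r < ρ1 / 2 := hrρ.trans_le (min_le_right _ _)
    have hr3 : r < ρ3 := hrρ.trans_le ((min_le_left _ _).trans (min_le_right _ _))
    obtain ⟨L, δ, hδ, hLδ, ⟨hint, c, hc⟩, hv⟩ := hmain (p + z) hpρ r hr h0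
      (hrρ.trans_le ((min_le_left _ _).trans (min_le_left _ _)))
    have hτ3 : C2 * VB N * τ r < 1 := hb3 ⟨h0, hr3⟩
    have hLn := norm_nonneg L
    have hτ0 : 0 < δ * τ r := lt_of_lt_of_le (by positivity) hLδ
    have hτp : 0 < τ r := pos_of_mul_pos_right hτ0 hδ
    have hrδ : r ≤ δ * τ r := by nlinarith
    have hδ2 : C2 * VB N * r ≤ δ := by
      calc C2 * VB N * r ≤ C2 * VB N * (δ * τ r) := by gcongr
        _ = δ * (C2 * VB N * τ r) := by ring
        _ ≤ δ * 1 := by gcongr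
        _ = δ := mul_one δ
    have hΦd : ‖fderiv ℝ Φ (p + z)‖ ≤ M := by
      have h1 := hd1 (p + z) (by rw [add_sub_cancel_right]; linarith)
      have h2 : ‖fderiv ℝ Φ (p + z)‖ ≤ ‖fderiv ℝ Φ z‖ + ‖fderiv ℝ Φ (p + z) - fderiv ℝ Φ z‖ := by
        calc ‖fderiv ℝ Φ (p + z)‖ = ‖fderiv ℝ Φ z + (fderiv ℝ Φ (p + z) - fderiv ℝ Φ z)‖ := by
              congr 1; abel
          _ ≤ _ := norm_add_le _ _
      rw [hM]
      linarith
    refine ⟨L - fderiv ℝ Φ (p + z), 2 * δ, by positivity, ?_, ⟨?_, c - Φ (p + z), ?_⟩,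
      ⟨z, rfl⟩, rfl, fun v hv1 hv2 => ?_⟩
    · have h1 : ‖L - fderiv ℝ Φ (p + z)‖ ≤ ‖L‖ + M := (norm_sub_le _ _).trans (by gcongr)
      calc ‖L - fderiv ℝ Φ (p + z)‖ * r ≤ (‖L‖ + M) * r := by gcongr
        _ ≤ (1 + M) * ((1 + ‖L‖) * r) := by nlinarith [mul_nonneg hM0 (mul_nonneg hLn h0.le)]
        _ ≤ (1 + M) * (δ * τ r) := by gcongr
        _ ≤ 2 * δ * ((1 + M) * τ r) := by nlinarith [mul_pos (show 0 < 1 + M by linarith) hτ0]
    · rw [one_pow, one_mul]
      refine trans_intOn (f := fun x => f r x - Φ x) (hint.sub ?_)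
      exact hΦ.continuous.continuousOn.integrableOn_compact (isCompact_closedBall _ _)
    · rw [one_pow, one_mul]
      have e1 : ∀ w : E N, ‖f r (w + z) - Φ (w + z) - (c - Φ (p + z)) -
          (L - fderiv ℝ Φ (p + z)) (w - p)‖ =
          (fun q => ‖f r q - Φ q - (c - Φ (p + z)) -
            (L - fderiv ℝ Φ (p + z)) (q - (p + z))‖) (w + z) := by
        intro w
        beta_reduce
        rw [add_sub_add_right_eq_sub]
      refine ((setIntegral_congr_fun measurableSet_closedBall (fun w _ => e1 w)).trans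
        (trans_int (fun q => ‖f r q - Φ q - (c - Φ (p + z)) -
            (L - fderiv ℝ Φ (p + z)) (q - (p + z))‖) p z r)).le.trans ?_
      have i1 : IntegrableOn (fun q => ‖f r q - c - L (q - (p + z))‖)
          (closedBall (p + z) r) := by
        refine ((hint.sub ?_).sub ?_).norm
        · exact integrableOn_const (by exact measure_closedBall_lt_top.ne)
        · refine (Continuous.continuousOn ?_).integrableOn_compact (isCompact_closedBall _ _)
          exact L.continuous.comp (continuous_id.sub continuous_const)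
      have i2 : ∀ q ∈ closedBall (p + z) r, ‖f r q - Φ q - (c - Φ (p + z)) -
            (L - fderiv ℝ Φ (p + z)) (q - (p + z))‖ ≤
          ‖f r q - c - L (q - (p + z))‖ + C2 * (r * r) := by
        intro q hq
        rw [mem_closedBall, dist_eq_norm] at hq
        have h1 : f r q - Φ q - (c - Φ (p + z)) - (L - fderiv ℝ Φ (p + z)) (q - (p + z)) =
            (f r q - c - L (q - (p + z))) -
            (Φ q - Φ (p + z) - fderiv ℝ Φ (p + z) (q - (p + z))) := by
          rw [sub_apply]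
          abel
        rw [h1]
        refine (norm_sub_le _ _).trans ?_
        have h2 := hq1 (p + z) r (fun s hs => by
          calc ‖s - z‖ = ‖(s - (p + z)) + p‖ := by congr 1; abel
            _ ≤ ‖s - (p + z)‖ + ‖p‖ := norm_add_le _ _
            _ < ρ1 := by linarith) q hq
        have h3 : C2 * r * ‖q - (p + z)‖ ≤ C2 * (r * r) := by
          rw [mul_assoc]
          gcongr
        linarith
      have hfin : (volume : Measure (E N)) (closedBall (p + z) r) ≠ ⊤ :=
        measure_closedBall_lt_top.ne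
      calc ∫ q in closedBall (p + z) r, ‖f r q - Φ q - (c - Φ (p + z)) -
            (L - fderiv ℝ Φ (p + z)) (q - (p + z))‖ ≤
          ∫ q in closedBall (p + z) r, (‖f r q - c - L (q - (p + z))‖ + C2 * (r * r)) := by
            refine setIntegral_mono_on ?_ (i1.add (integrableOn_const hfin))
              measurableSet_closedBall i2
            refine (((hint.sub ?_).sub ?_).sub ?_).norm
            · exact hΦ.continuous.continuousOn.integrableOn_compact (isCompact_closedBall _ _)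
            · exact integrableOn_const hfin
            · refine (Continuous.continuousOn ?_).integrableOn_compact (isCompact_closedBall _ _)
              exact (L - fderiv ℝ Φ (p + z)).continuous.comp (continuous_id.sub continuous_const)
        _ = (∫ q in closedBall (p + z) r, ‖f r q - c - L (q - (p + z))‖) +
            C2 * (r * r) * (r ^ N * VB N) := by
            rw [integral_add i1 (integrableOn_const hfin), setIntegral_const, vol_cb _ h0,
              smul_eq_mul, mul_comm (r ^ N * VB N)]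
        _ ≤ δ * r ^ (N + 1) + (C2 * VB N * r) * r ^ (N + 1) := by
            have : C2 * (r * r) * (r ^ N * VB N) = (C2 * VB N * r) * r ^ (N + 1) := by ring
            rw [this]
            gcongr
        _ ≤ δ * r ^ (N + 1) + δ * r ^ (N + 1) := by gcongr
        _ = 2 * δ * r ^ (N + 1) := by ring
    · have h1 := hv v hv1 hv2
      have h2 : (L - fderiv ℝ Φ (p + z)) v + fderiv ℝ Φ ((fun y => y + z) p) v = L v := by
        rw [sub_apply]
        abel
      rw [h2]
      have h3 : CJ N * (2 * δ) * ‖v‖ ≤ C * δ * ‖v‖ := by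
        have : CJ N * (2 * δ) = 2 * CJ N * δ := by ring
        rw [this]
        gcongr
      linarith

/-- smoothing of coarse families of local diffeomorphisms -/
theorem forwardI {π : E N →L[ℝ] P} {C : ℝ} (hC : 2 * CJ N ≤ C) {Φ : E N → W}
    (hΦ : ContDiff ℝ ∞ Φ) {S : Set ℝ} (hS : (0 : ℝ) ∈ closure (S ∩ Ioi 0))
    {U Z : Set (E N)} (hU : IsOpen U) (hZ : IsClosed Z) (hZU : Z ⊆ U) (hK : IsCompact Uᶜ)
    (hV : ∀ z ∈ U, VI π Φ z) {f : ℝ → E N → W} (hf0 : ∀ r ∈ S, ∀ z ∈ U, f r z = Φ z)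
    (hf : ∀ z, z ∉ U → CoarseI π C S f z) :
    ∃ (F : E N → W) (K : Set (E N)), IsCompact K ∧ Disjoint K Z ∧ ContDiff ℝ ∞ F ∧
      (∀ z, z ∉ K → F z = Φ z) ∧ ∀ z, VI π F z := by
  obtain ⟨F', K, hKc, hKZ, hK0, hF', hreg⟩ := globJR (n := N) (X := E N)
    (fun r x => f r x - Φ x) (fun x y => ‖x - y‖) (QI π Φ) S hS U Z hU hZ hZU hK
    (fun r hr x hx => by rw [hf0 r hr x hx, sub_self]) fun x hx => creg hC hΦ (hf x hx)
  have hF's : ContDiff ℝ ∞ F' := contDiff_iff_contDiffAt.2 fun x =>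
    contMDiffAt_iff_contDiffAt.1 (hF' x)
  refine ⟨fun z => Φ z + F' z, K, hKc, hKZ, hΦ.add hF's, fun z hz => by
    beta_reduce
    rw [hK0 z hz, add_zero], fun z v hv h0 => ?_⟩
  have hd : fderiv ℝ (fun z => Φ z + F' z) z = fderiv ℝ Φ z + fderiv ℝ F' z :=
    fderiv_fun_add (hΦ.differentiable (by simp) z) (hF's.differentiable (by simp) z)
  rw [hd, add_apply] at h0
  rcases hreg z with h | ⟨hzU, hz⟩
  · obtain ⟨A, p, L, κ, δ, hAp, hA, hκ, hδ, ⟨⟨x₀, hx₀⟩, hκ1, hQ⟩, hcl⟩ := h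
    by_contra hv0
    have h1 := hQ v hv hv0
    rw [hAp] at h1
    have h2 : fderiv ℝ (fun w => F' (A w)) p = fderiv ℝ F' z := by
      rw [hx₀] at hAp ⊢
      beta_reduce at hAp ⊢
      rw [fderiv_comp_add_right, hAp]
    rw [h2, hκ1, one_pow, mul_one] at hcl
    have h3 : L v + fderiv ℝ Φ z v = -((fderiv ℝ F' z - L) v) := by
      rw [sub_apply]
      have : fderiv ℝ Φ z v = -(fderiv ℝ F' z v) := eq_neg_of_add_eq_zero_left h0
      rw [this]
      abel
    rw [h3, norm_neg] at h1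
    have h4 := (fderiv ℝ F' z - L).le_opNorm v
    have h5 : ‖fderiv ℝ F' z - L‖ * ‖v‖ ≤ CJ N * δ * ‖v‖ := by gcongr
    linarith
  · have h1 : fderiv ℝ F' z = 0 := by
      rw [hz.fderiv_eq, fderiv_fun_const]
      rfl
    rw [h1] at h0
    refine hV z hzU v hv ?_
    simpa using h0

/-- smooth families satisfy the coarse condition -/
theorem backwardI (π : E N →L[ℝ] P) (C : ℝ) (S : Set ℝ) {F : E N → W} (hF : ContDiff ℝ ∞ F)
    {z : E N} (hz : VI π F z) : CoarseI π C S (fun _ => F) z := by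
  obtain ⟨ρ1, C2, hρ1, hC2, hd1, hq1⟩ := quad_ballW (hF.contDiffAt (x := z)) one_pos
  have hVB := VB_nonneg (n := N)
  obtain ⟨K, hK⟩ : ∃ K : Submodule ℝ (E N), K = LinearMap.ker π.toLinearMap := ⟨_, rfl⟩
  have hKm : ∀ v, v ∈ K ↔ π v = 0 := fun v => by
    rw [hK]
    rfl
  obtain ⟨m, hm, hml⟩ := exists_lower ((fderiv ℝ F z).toLinearMap.comp K.subtype) (by
    rw [← LinearMap.ker_eq_bot, LinearMap.ker_eq_bot']
    intro v hv
    exact Subtype.ext (hz v ((hKm v).1 v.2) hv))
  have hml' : ∀ v, π v = 0 → m * ‖v‖ ≤ ‖fderiv ℝ F z v‖ := fun v hv => hml ⟨v, (hKm v).2 hv⟩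
  have hcont : ∀ᶠ p in 𝓝 z, ‖fderiv ℝ F p - fderiv ℝ F z‖ < m / 2 := by
    have h1 : ContinuousAt (fderiv ℝ F) z :=
      (hF.contDiffAt.fderiv_right (m := 0) (by simp)).continuousAt
    have h2 : Tendsto (fun p => ‖fderiv ℝ F p - fderiv ℝ F z‖) (𝓝 z)
        (𝓝 ‖fderiv ℝ F z - fderiv ℝ F z‖) := (h1.sub continuousAt_const).norm
    rw [sub_self, norm_zero] at h2
    exact h2.eventually_lt_const (by positivity)
  obtain ⟨ρ2, hρ2, hb2⟩ := Metric.mem_nhds_iff.1 hcont
  obtain ⟨M, hM⟩ : ∃ M, M = ‖fderiv ℝ F z‖ + 1 := ⟨_, rfl⟩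
  obtain ⟨a, ha⟩ : ∃ a, a = C2 * VB N + 1 := ⟨_, rfl⟩
  have ha0 : 0 < a := by rw [ha]; positivity
  have hsq : Tendsto Real.sqrt (𝓝[>] 0) (𝓝 0) := by
    have h1 : Tendsto Real.sqrt (𝓝 0) (𝓝 (Real.sqrt 0)) := Real.continuous_sqrt.continuousAt
    rw [Real.sqrt_zero] at h1
    exact h1.mono_left nhdsWithin_le_nhds
  have hlim : ∀ᶠ r in 𝓝[>] (0 : ℝ), |C| * a * Real.sqrt r < m / 2 := by
    have h1 := hsq.const_mul (|C| * a)
    rw [mul_zero] at h1
    exact h1.eventually_lt_const (by positivity)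
  obtain ⟨ρ3, hρ3, hb3⟩ := mem_nhdsGT_iff_exists_Ioo_subset.1 hlim
  have hρ3' : 0 < ρ3 := hρ3
  refine ⟨min (min ρ2 ρ3) (min (ρ1 / 2) 1), fun r => (1 + M) * Real.sqrt r,
    lt_min (lt_min hρ2 hρ3') (lt_min (by positivity) one_pos), ?_, fun p hp r _ h0 hrρ => ?_⟩
  · have h1 := hsq.const_mul (1 + M)
    rwa [mul_zero] at h1
  · have hp2 : ‖p - z‖ < ρ2 := hp.trans_le ((min_le_left _ _).trans (min_le_left _ _))
    have hp1 : ‖p - z‖ < ρ1 / 2 := hp.trans_le ((min_le_right _ _).trans (min_le_left _ _))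
    have hr3 : r < ρ3 := hrρ.trans_le ((min_le_left _ _).trans (min_le_right _ _))
    have hr1 : r < ρ1 / 2 := hrρ.trans_le ((min_le_right _ _).trans (min_le_left _ _))
    have hr11 : r < 1 := hrρ.trans_le ((min_le_right _ _).trans (min_le_right _ _))
    have hs0 : 0 < Real.sqrt r := Real.sqrt_pos.2 h0
    have hss : Real.sqrt r * Real.sqrt r = r := Real.mul_self_sqrt h0.le
    have hrs : r ≤ Real.sqrt r := by
      have : Real.sqrt r ≤ 1 := Real.sqrt_le_one.2 hr11.le
      nlinarith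
    have hFd : ‖fderiv ℝ F p‖ ≤ M := by
      have h1 := hd1 p (by linarith)
      have h2 : ‖fderiv ℝ F p‖ ≤ ‖fderiv ℝ F z‖ + ‖fderiv ℝ F p - fderiv ℝ F z‖ := by
        calc ‖fderiv ℝ F p‖ = ‖fderiv ℝ F z + (fderiv ℝ F p - fderiv ℝ F z)‖ := by
              congr 1; abel
          _ ≤ _ := norm_add_le _ _
      rw [hM]
      linarith
    refine ⟨fderiv ℝ F p, a * Real.sqrt r, by positivity, ?_, ⟨?_, F p, ?_⟩,
      fun v hv hv0 => ?_⟩
    · calc (1 + ‖fderiv ℝ F p‖) * r ≤ (1 + M) * r := by gcongr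
        _ = 1 * ((1 + M) * (Real.sqrt r * Real.sqrt r)) := by rw [hss, one_mul]
        _ ≤ a * ((1 + M) * (Real.sqrt r * Real.sqrt r)) := by
          have hM0 : 0 ≤ M := by rw [hM]; positivity
          have : 1 ≤ a := by
            rw [ha]
            have : 0 ≤ C2 * VB N := by positivity
            linarith
          gcongr
        _ = a * Real.sqrt r * ((1 + M) * Real.sqrt r) := by ring
    · exact hF.continuous.continuousOn.integrableOn_compact (isCompact_closedBall _ _)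
    · have hfin : (volume : Measure (E N)) (closedBall p r) ≠ ⊤ := measure_closedBall_lt_top.ne
      have h3 : ‖∫ q in closedBall p r, ‖F q - F p - fderiv ℝ F p (q - p)‖‖ ≤
          C2 * (r * r) * (volume : Measure (E N)).real (closedBall p r) := by
        refine norm_setIntegral_le_of_norm_le_const measure_closedBall_lt_top fun q hq => ?_
        rw [mem_closedBall, dist_eq_norm] at hq
        rw [norm_norm]
        refine (hq1 p r (fun s hs => ?_) q hq).trans ?_
        · calc ‖s - z‖ = ‖(s - p) + (p - z)‖ := by congr 1; abel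
            _ ≤ ‖s - p‖ + ‖p - z‖ := norm_add_le _ _
            _ < ρ1 := by linarith
        · rw [mul_assoc]
          gcongr
      rw [vol_cb p h0] at h3
      refine ((le_abs_self _).trans h3).trans ?_
      calc C2 * (r * r) * (r ^ N * VB N) = (C2 * VB N * r) * r ^ (N + 1) := by ring
        _ ≤ (a * Real.sqrt r) * r ^ (N + 1) := by
          have h4 : C2 * VB N * r ≤ a * Real.sqrt r := by
            have h5 : 0 ≤ C2 * VB N := by positivity
            rw [ha]
            nlinarith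
          gcongr
    · have h1 := hml' v hv
      have hvn : 0 < ‖v‖ := norm_pos_iff.2 hv0
      have h2 : ‖(fderiv ℝ F p - fderiv ℝ F z) v‖ ≤ m / 2 * ‖v‖ := by
        refine (ContinuousLinearMap.le_opNorm _ _).trans ?_
        have : ‖fderiv ℝ F p - fderiv ℝ F z‖ < m / 2 := hb2 (by
          rw [mem_ball, dist_eq_norm]
          exact hp2)
        gcongr
      have h3 : ‖fderiv ℝ F z v‖ ≤ ‖fderiv ℝ F p v‖ + ‖(fderiv ℝ F p - fderiv ℝ F z) v‖ := by
        calc ‖fderiv ℝ F z v‖ = ‖fderiv ℝ F p v - (fderiv ℝ F p - fderiv ℝ F z) v‖ := by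
              congr 1
              rw [sub_apply]
              abel
          _ ≤ _ := norm_sub_le _ _
      have h4 : |C| * a * Real.sqrt r < m / 2 := hb3 ⟨h0, hr3⟩
      have h5 : C * (a * Real.sqrt r) * ‖v‖ ≤ (|C| * a * Real.sqrt r) * ‖v‖ := by
        have : C * (a * Real.sqrt r) ≤ |C| * a * Real.sqrt r := by
          rw [mul_assoc]
          gcongr
          exact le_abs_self C
        gcongr
      nlinarith

end Pool.Agent.N824.CI
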